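import Pool.Agent.Y803.GR.Fld

/-!
MP_b2d650_al: semisimplicity of `F[G]` in characteristic zero for groups in which the infinite
finitely generated subgroups have large centralisers.

Idea.  Over a field in which sums of squares vanish only trivially let `x ≠ 0` be in the radical `J`
and `H` the subgroup generated by its support.  Then `w = x* x ∈ J` is not nilpotent, hence
transcendental.  If `H` commutes with a disjoint group `L` which is infinite and finitely generated,
then `F[L]` contains a transcendental element `y`, and a functional on `F[G]` with values in `F(t)`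
which turns the multiplications by `w` and `y` into those by `t` and `1/t` kills the right ideal
generated by `1 - w y` but not `1`; so `1 - w y` is not invertible although `w y ∈ J`.
-/

set_option autoImplicit false

namespace Pool.Agent.Results.MP_b2d650_al.LargeCentralisers

open Pool.Agent.Y803.GR

universe u v

theorem not_locFinite_of {G : Type v} [Group G] (H : Subgroup G) (S : Finset G)
    (hS : ∀ s ∈ S, s ∈ H) (hinf : (Subgroup.closure (S : Set G) : Set G).Infinite) :
    ¬ LocFinite H := by
  classical
  intro h
  apply hinf
  set S' : Finset H := S.subtype (· ∈ H) with hS'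
  have h1 := h S'
  have h2 : (Subgroup.closure (S : Set G) : Set G) ⊆
      H.subtype '' (Subgroup.closure (S' : Set H) : Set H) := by
    have h3 : Subgroup.closure (S : Set G) ≤ (Subgroup.closure (S' : Set H)).map H.subtype := by
      rw [Subgroup.closure_le]
      intro s hs
      exact ⟨⟨s, hS s hs⟩, Subgroup.subset_closure (Finset.mem_coe.2 (Finset.mem_subtype.2 hs)), rfl⟩
    exact h3
  exact (h1.image _).subset h2

/-- Let `F` be a field of characteristic zero and `G` a group such that for every finite subset `S`
which generates an infinite subgroup there is a finite subset `T` commuting with `S` such that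
`⟨S⟩ ∩ ⟨T⟩ = 1` and `⟨T⟩` is infinite. Then `J(F[G]) = 0`. -/
theorem result (F : Type u) [Field F] [CharZero F] (G : Type v) [Group G]
    (hG : ∀ S : Finset G, (Subgroup.closure (S : Set G) : Set G).Infinite →
      ∃ T : Finset G, (∀ a ∈ S, ∀ b ∈ T, a * b = b * a) ∧
        (∀ a ∈ Subgroup.closure (S : Set G), a ∈ Subgroup.closure (T : Set G) → a = 1) ∧
        (Subgroup.closure (T : Set G) : Set G).Infinite) :
    Ideal.jacobson (⊥ : Ideal (MonoidAlgebra F G)) = ⊥ := by
  refine all_fields F fun k _ _ _ _ hR => jacobson_central k hR ?_
  intro S hSinf
  obtain ⟨T, h1, h2, h3⟩ := hG S hSinf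
  refine ⟨Subgroup.closure (T : Set G), ?_, h2,
    not_locFinite_of _ T (fun s hs => Subgroup.subset_closure hs) h3⟩
  intro a ha b hb
  induction hb using Subgroup.closure_induction with
  | mem b hb => exact h1 a ha b hb
  | one => rw [one_mul, mul_one]
  | mul b c _ _ h4 h5 => rw [← mul_assoc, h4, mul_assoc, h5, mul_assoc]
  | inv b _ h4 =>
    rw [eq_inv_mul_iff_mul_eq, ← mul_assoc, ← h4, mul_assoc, mul_inv_cancel, mul_one]

end Pool.Agent.Results.MP_b2d650_al.LargeCentralisers
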