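import Pool.Agent.Y803.GR.Fld

/-!
MP_b2d650_al: semisimplicity of `F[G]` in characteristic zero for groups of homeomorphisms with
non-trivial rigid stabilisers (micro-supported groups), and for groups with a normal subgroup of
this kind.

Idea.  Let `x` be a nonzero element of `J = J(F[G])` with `1` in its support `S`.  For each
`1 ≠ g ∈ S` choose an open set `U_g` with `U_g ∩ g⁻¹ U_g = ∅`, so that all the translates of these
sets by elements of `S⁻¹` are disjoint, and an element `y ≠ 1` of the rigid stabiliser of `U_g`.  The
operator `x ↦ x - y x (g⁻¹ y⁻¹ g)` preserves `J`, kills the term `g`, and multiplies the term `1` by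
`1 - y g⁻¹ y⁻¹ g`, which is not nilpotent.  In the end `J` contains a non-nilpotent element `w` which
is either algebraic, a contradiction, or commutes with an independent transcendental element `y`.
In the second case `w` is transcendental too, and there is a functional `θ` on `F[G]` with values in
`F(t)`, `θ(1) = 1`, which turns the multiplications by `w` and `y` into those by `t` and `1/t`; it
kills the right ideal generated by `1 - w y`, so `1 - w y` is not invertible although `w y ∈ J`.
If the action has a kernel `K`, then the coefficients are elements of `F[K]`, and one works first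
over a field in which sums of squares vanish only trivially, with `x* x` in place of `x`.
-/

set_option autoImplicit false

namespace Pool.Agent.Results.MP_b2d650_al.RigidStabilisers

open Pool.Agent.Y803.GR

universe u v w

theorem not_locFinite_of {G : Type v} [Group G] (H : Subgroup G) (S : Finset G)
    (hS : ∀ s ∈ S, s ∈ H) (hinf : (Subgroup.closure (S : Set G) : Set G).Infinite) :
    ¬ LocFinite H := by
  classical
  intro h
  apply hinf
  set S' : Finset H := S.subtype (· ∈ H) with hS'
  have h1 := h S'
  have h2 : (Subgroup.closure (S : Set G) : Set G) ⊆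
      H.subtype '' (Subgroup.closure (S' : Set H) : Set H) := by
    have h3 : Subgroup.closure (S : Set G) ≤ (Subgroup.closure (S' : Set H)).map H.subtype := by
      rw [Subgroup.closure_le]
      intro s hs
      exact ⟨⟨s, hS s hs⟩, Subgroup.subset_closure (Finset.mem_coe.2 (Finset.mem_subtype.2 hs)), rfl⟩
    exact h3
  exact (h1.image _).subset h2

/-- Let `F` be a field of characteristic zero, let the group `G` act by homeomorphisms on a
Hausdorff space `X`, and let `K` be the kernel of the action. Let `N` be a normal subgroup of `G`
which acts faithfully on `X`, such that for every nonempty open set `U` some `a ≠ 1` in `N` fixes all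
points outside `U`. Assume that `K = 1`, or that `J(F[K]) = 0`, or that `X` is not empty and for
every nonempty open set `U` finitely many elements of `N` which fix all points outside `U` generate
an infinite group. Then `J(F[G]) = 0`. -/
theorem result (F : Type u) [Field F] [CharZero F] (G : Type v) [Group G]
    (X : Type w) [TopologicalSpace X] [T2Space X] [MulAction G X] [ContinuousConstSMul G X]
    (N : Subgroup G) [N.Normal] (hN : ∀ n ∈ N, (∀ x : X, n • x = x) → n = 1)
    (hU : ∀ U : Set X, IsOpen U → U.Nonempty → ∃ a ∈ N, a ≠ 1 ∧ ∀ x, x ∉ U → a • x = x)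
    (hK : (MulAction.toPermHom G X).ker = ⊥ ∨
      Ideal.jacobson (⊥ : Ideal (MonoidAlgebra F (MulAction.toPermHom G X).ker)) = ⊥ ∨
      (Nonempty X ∧ ∀ U : Set X, IsOpen U → U.Nonempty → ∃ S : Finset G,
        (∀ s ∈ S, s ∈ N ∧ ∀ x, x ∉ U → s • x = x) ∧
        (Subgroup.closure (S : Set G) : Set G).Infinite)) :
    Ideal.jacobson (⊥ : Ideal (MonoidAlgebra F G)) = ⊥ := by
  have hker : (MulAction.toPermHom G X).ker = Rist G (∅ : Set X) := by
    ext g
    rw [MonoidHom.mem_ker, mem_Rist, Equiv.ext_iff]
    exact ⟨fun h x _ => h x, fun h x => h x (Set.notMem_empty x)⟩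
  rw [hker] at hK
  refine jacobson_normal_all F X N hN ?_ ?_
  · intro U hUo hne
    obtain ⟨a, ha, ha1, h⟩ := hU U hUo hne
    exact ⟨a, ⟨h, ha⟩, ha1⟩
  · rcases hK with h | h | ⟨h1, h2⟩
    · left
      have : Subsingleton (Rist G (∅ : Set X)) := by
        rw [h]
        infer_instance
      exact Pool.Agent.H225R3.JRad.jac_of_subsingleton F _
    · exact Or.inl h
    · right
      refine ⟨h1, fun U hUo hne => ?_⟩
      obtain ⟨S, hS, hinf⟩ := h2 U hUo hne
      exact not_locFinite_of _ S (fun s hs => ⟨(hS s hs).2, (hS s hs).1⟩) hinf

end Pool.Agent.Results.MP_b2d650_al.RigidStabilisers
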